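import Pool.Agent.Helper28.BA.GoalsB

/-! # Project BA, goal AVG: averaging over the rotations -/

open Complex MeasureTheory Set Filter Topology
open scoped ContDiff ComplexConjugate

namespace Pool.Agent.Helper49.BA

open Pool.Agent.Helper28.BA

theorem cos_int (q φ : ℝ) : ∫ θ in (0 : ℝ)..(2 * Real.pi), |Real.cos (θ - φ)| ^ q =
    ∫ θ in (0 : ℝ)..(2 * Real.pi), |Real.cos θ| ^ q := by
  have hper : Function.Periodic (fun θ : ℝ => |Real.cos θ| ^ q) (2 * Real.pi) := by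
    intro θ
    simp [Real.cos_add_two_pi]
  have h1 : ∫ θ in (0 : ℝ)..(2 * Real.pi), |Real.cos (θ - φ)| ^ q =
      ∫ θ in (0 - φ)..(2 * Real.pi - φ), |Real.cos θ| ^ q :=
    intervalIntegral.integral_comp_sub_right (fun θ => |Real.cos θ| ^ q) φ
  rw [h1]
  have h2 := hper.intervalIntegral_add_eq (0 - φ) 0
  have h3 : (0 - φ) + 2 * Real.pi = 2 * Real.pi - φ := by ring
  rw [h3, zero_add] at h2
  exact h2

theorem re_rot (w : ℂ) (t : ℝ) : (exp (-(t * I)) * w).re = ‖w‖ * Real.cos (t - arg w) := by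
  have h1 : exp (-(t * I)) = ⟨Real.cos t, -Real.sin t⟩ := by
    have : -((t : ℂ) * I) = ((-t : ℝ) : ℂ) * I := by push_cast; ring
    rw [this, Complex.exp_mul_I]
    apply Complex.ext
    · simp [← Complex.ofReal_cos, ← Complex.ofReal_sin]
    · simp [← Complex.ofReal_cos, ← Complex.ofReal_sin]
  rw [h1, Real.cos_sub]
  simp only [Complex.mul_re]
  have h2 := Complex.norm_mul_cos_arg w
  have h3 := Complex.norm_mul_sin_arg w
  linear_combination (-Real.cos t) * h2 + (-Real.sin t) * h3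

/-- integral over the rotations -/
theorem inner_int {q : ℝ} (w : ℂ) (s : ℝ) :
    ∫ θ in (0 : ℝ)..(2 * Real.pi), |(exp (-(((θ + s : ℝ) : ℂ) * I)) * w).re| ^ q =
      (∫ θ in (0 : ℝ)..(2 * Real.pi), |Real.cos θ| ^ q) * ‖w‖ ^ q := by
  have h1 : (fun θ : ℝ => |(exp (-(((θ + s : ℝ) : ℂ) * I)) * w).re| ^ q) =
      fun θ : ℝ => ‖w‖ ^ q * |Real.cos (θ - (arg w - s))| ^ q := by
    funext θ
    rw [re_rot, abs_mul, abs_norm, Real.mul_rpow (norm_nonneg _) (abs_nonneg _)]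
    congr 3
    congr 1
    ring
  rw [h1, intervalIntegral.integral_const_mul, cos_int, mul_comm]

theorem rot_le (w : ℂ) (t : ℝ) : |(exp (-(t * I)) * w).re| ≤ ‖w‖ := by
  rw [re_rot, abs_mul, abs_norm]
  exact mul_le_of_le_one_right (norm_nonneg _) (Real.abs_cos_le_one _)

theorem outer_int {q : ℝ} (hq : 1 < q) {Φ : ℂ → ℂ} (hΦ : Continuous Φ)
    (hc : HasCompactSupport Φ) (s : ℝ) :
    ∫ θ in (0 : ℝ)..(2 * Real.pi), ∫ z, |(exp (-(((θ + s : ℝ) : ℂ) * I)) * Φ z).re| ^ q =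
      (∫ θ in (0 : ℝ)..(2 * Real.pi), |Real.cos θ| ^ q) * ∫ z, ‖Φ z‖ ^ q := by
  have hpi : (0 : ℝ) ≤ 2 * Real.pi := by positivity
  have hint : Integrable fun z => ‖Φ z‖ ^ q := by
    refine Continuous.integrable_of_hasCompactSupport ?_ ?_
    · exact hΦ.norm.rpow_const fun z => Or.inr (by linarith)
    · exact hc.comp_left (g := fun w : ℂ => ‖w‖ ^ q) (by
        simp [Real.zero_rpow (by linarith : q ≠ 0)])
  have hcont : Continuous fun p : ℝ × ℂ =>
      |(exp (-(((p.1 + s : ℝ) : ℂ) * I)) * Φ p.2).re| ^ q := by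
    refine Continuous.rpow_const ?_ fun z => Or.inr (by linarith)
    fun_prop
  have hprod : Integrable (Function.uncurry fun (θ : ℝ) (z : ℂ) =>
      |(exp (-(((θ + s : ℝ) : ℂ) * I)) * Φ z).re| ^ q)
      ((volume.restrict (Ioc 0 (2 * Real.pi))).prod volume) := by
    refine Integrable.mono' (hint.comp_snd (volume.restrict (Ioc (0 : ℝ) (2 * Real.pi))))
      hcont.aestronglyMeasurable (Eventually.of_forall fun p => ?_)
    have h0 : 0 ≤ |(exp (-(((p.1 + s : ℝ) : ℂ) * I)) * Φ p.2).re| ^ q := by positivity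
    simp only [Function.uncurry]
    rw [Real.norm_eq_abs, abs_of_nonneg h0]
    exact Real.rpow_le_rpow (abs_nonneg _) (rot_le _ _) (by linarith)
  rw [intervalIntegral.integral_of_le hpi, integral_integral_swap hprod]
  rw [← integral_const_mul]
  congr 1
  funext z
  rw [← intervalIntegral.integral_of_le hpi]
  exact inner_int (Φ z) s

theorem cont_B {q : ℝ} (hq : 1 < q) {Φ : ℂ → ℂ} (hΦ : Continuous Φ)
    (hc : HasCompactSupport Φ) (s : ℝ) :
    Continuous fun θ : ℝ => ∫ z, |(exp (-(((θ + s : ℝ) : ℂ) * I)) * Φ z).re| ^ q := by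
  have hint : Integrable fun z => ‖Φ z‖ ^ q := by
    refine Continuous.integrable_of_hasCompactSupport ?_ ?_
    · exact hΦ.norm.rpow_const fun z => Or.inr (by linarith)
    · exact hc.comp_left (g := fun w : ℂ => ‖w‖ ^ q) (by
        simp [Real.zero_rpow (by linarith : q ≠ 0)])
  refine continuous_of_dominated (bound := fun z => ‖Φ z‖ ^ q) ?_ ?_ hint ?_
  · intro θ
    refine Continuous.aestronglyMeasurable ?_
    refine Continuous.rpow_const ?_ fun z => Or.inr (by linarith)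
    fun_prop
  · intro θ
    refine Eventually.of_forall fun z => ?_
    have h0 : 0 ≤ |(exp (-(((θ + s : ℝ) : ℂ) * I)) * Φ z).re| ^ q := by positivity
    rw [Real.norm_eq_abs, abs_of_nonneg h0]
    exact Real.rpow_le_rpow (abs_nonneg _) (rot_le _ _) (by linarith)
  · refine Eventually.of_forall fun z => ?_
    refine Continuous.rpow_const ?_ fun z => Or.inr (by linarith)
    fun_prop

theorem add_rpow {q a b : ℝ} (hq : 1 < q) (ha : 0 ≤ a) (hb : 0 ≤ b) :
    (a + b) ^ q ≤ 2 ^ q * ((a ^ q + b ^ q) / 2) := by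
  have h1 := (convexOn_rpow hq.le).2 (x := a) (y := b) ha hb
    (show (0 : ℝ) ≤ 1 / 2 by norm_num) (show (0 : ℝ) ≤ 1 / 2 by norm_num) (by norm_num)
  simp only [smul_eq_mul] at h1
  have h2 : (a + b) ^ q = 2 ^ q * (1 / 2 * a + 1 / 2 * b) ^ q := by
    rw [← Real.mul_rpow (by norm_num) (by positivity)]
    congr 1
    ring
  rw [h2]
  refine mul_le_mul_of_nonneg_left ?_ (by positivity)
  linarith

theorem AVG : S_AVG := by
  intro q hq K hK Φ X Y hΦ hX hY hΦc hXc hYc h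
  have hpi : (0 : ℝ) < 2 * Real.pi := by positivity
  have hq0 : (0 : ℝ) ≤ q := by linarith
  have hqne : q ≠ 0 := by linarith
  -- pointwise estimate
  have hpt : ∀ (θ : ℝ) (z : ℂ), ‖X z‖ ^ q ≤ 2 ^ q *
      ((‖(exp (-((θ : ℂ) * I)) * X z + exp ((θ : ℂ) * I) * Y z) / 2‖ ^ q +
      ‖(exp (-(((θ + Real.pi / 2 : ℝ) : ℂ) * I)) * X z +
        exp (((θ + Real.pi / 2 : ℝ) : ℂ) * I) * Y z) / 2‖ ^ q) / 2) := by
    intro θ z
    refine le_trans ?_ (add_rpow hq (norm_nonneg _) (norm_nonneg _))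
    refine Real.rpow_le_rpow (norm_nonneg _) ?_ hq0
    have e1 : exp (-(((θ + Real.pi / 2 : ℝ) : ℂ) * I)) = exp (-((θ : ℂ) * I)) * (-I) := by
      have : -(((θ + Real.pi / 2 : ℝ) : ℂ) * I) = -((θ : ℂ) * I) + -(Real.pi / 2 * I) := by
        push_cast
        ring
      rw [this, Complex.exp_add, Complex.exp_neg (Real.pi / 2 * I), Complex.exp_pi_div_two_mul_I,
        Complex.inv_I]
    have e2 : exp (((θ + Real.pi / 2 : ℝ) : ℂ) * I) = exp ((θ : ℂ) * I) * I := by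
      have : ((θ + Real.pi / 2 : ℝ) : ℂ) * I = (θ : ℂ) * I + Real.pi / 2 * I := by
        push_cast
        ring
      rw [this, Complex.exp_add, Complex.exp_pi_div_two_mul_I]
    have e3 : ‖(exp (-(((θ + Real.pi / 2 : ℝ) : ℂ) * I)) * X z +
        exp (((θ + Real.pi / 2 : ℝ) : ℂ) * I) * Y z) / 2‖ =
        ‖(exp (-((θ : ℂ) * I)) * X z - exp ((θ : ℂ) * I) * Y z) / 2‖ := by
      rw [e1, e2]
      have : (exp (-((θ : ℂ) * I)) * (-I) * X z + exp ((θ : ℂ) * I) * I * Y z) / 2 =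
          (-I) * ((exp (-((θ : ℂ) * I)) * X z - exp ((θ : ℂ) * I) * Y z) / 2) := by ring
      rw [this, norm_mul]
      simp
    rw [e3]
    have e4 : ‖exp (-((θ : ℂ) * I)) * X z‖ = ‖X z‖ := by
      rw [norm_mul]
      have : -((θ : ℂ) * I) = ((-θ : ℝ) : ℂ) * I := by push_cast; ring
      rw [this, Complex.norm_exp_ofReal_mul_I, one_mul]
    rw [← e4]
    have e5 : exp (-((θ : ℂ) * I)) * X z =
        (exp (-((θ : ℂ) * I)) * X z + exp ((θ : ℂ) * I) * Y z) / 2 +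
        (exp (-((θ : ℂ) * I)) * X z - exp ((θ : ℂ) * I) * Y z) / 2 := by ring
    conv_lhs => rw [e5]
    exact norm_add_le _ _
  have hintX : Integrable fun z => ‖X z‖ ^ q := by
    refine Continuous.integrable_of_hasCompactSupport ?_ ?_
    · exact hX.norm.rpow_const fun z => Or.inr hq0
    · exact hXc.comp_left (g := fun w : ℂ => ‖w‖ ^ q) (by simp [Real.zero_rpow hqne])
  have hintL : ∀ θ : ℝ, Integrable fun z =>
      ‖(exp (-((θ : ℂ) * I)) * X z + exp ((θ : ℂ) * I) * Y z) / 2‖ ^ q := by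
    intro θ
    refine Continuous.integrable_of_hasCompactSupport ?_ ?_
    · refine Continuous.rpow_const ?_ fun z => Or.inr hq0
      fun_prop
    · have hs : HasCompactSupport fun z =>
          exp (-((θ : ℂ) * I)) * X z + exp ((θ : ℂ) * I) * Y z :=
        hXc.mul_left.add hYc.mul_left
      exact hs.comp_left (g := fun w : ℂ => ‖w / 2‖ ^ q) (by simp [Real.zero_rpow hqne])
  -- integrate over z
  have hz : ∀ θ : ℝ, ∫ z, ‖X z‖ ^ q ≤ 2 ^ q * (K *
      ((∫ z, |(exp (-(((θ + 0 : ℝ) : ℂ) * I)) * Φ z).re| ^ q) +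
        ∫ z, |(exp (-(((θ + Real.pi / 2 : ℝ) : ℂ) * I)) * Φ z).re| ^ q) / 2) := by
    intro θ
    have h1 := integral_mono hintX ((((hintL θ).add
      (hintL (θ + Real.pi / 2))).div_const 2).const_mul (2 ^ q)) (hpt θ)
    rw [integral_const_mul] at h1
    refine h1.trans ?_
    refine mul_le_mul_of_nonneg_left ?_ (by positivity)
    have h2 := h θ
    have h3 := h (θ + Real.pi / 2)
    have h4 : ∫ z, (((fun z => ‖(exp (-((θ : ℂ) * I)) * X z + exp ((θ : ℂ) * I) * Y z) / 2‖ ^ q)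
        + fun z => ‖(exp (-(((θ + Real.pi / 2 : ℝ) : ℂ) * I)) * X z +
          exp (((θ + Real.pi / 2 : ℝ) : ℂ) * I) * Y z) / 2‖ ^ q) z / 2) =
        ((∫ z, ‖(exp (-((θ : ℂ) * I)) * X z + exp ((θ : ℂ) * I) * Y z) / 2‖ ^ q) +
        ∫ z, ‖(exp (-(((θ + Real.pi / 2 : ℝ) : ℂ) * I)) * X z +
          exp (((θ + Real.pi / 2 : ℝ) : ℂ) * I) * Y z) / 2‖ ^ q) / 2 := by
      rw [integral_div]
      congr 1
      exact integral_add (hintL θ) (hintL (θ + Real.pi / 2))
    refine (le_of_eq h4).trans ?_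
    rw [add_zero]
    have h5 : K * ((∫ z, |(exp (-((θ : ℂ) * I)) * Φ z).re| ^ q) +
        ∫ z, |(exp (-(((θ + Real.pi / 2 : ℝ) : ℂ) * I)) * Φ z).re| ^ q) / 2 =
        (K * (∫ z, |(exp (-((θ : ℂ) * I)) * Φ z).re| ^ q) +
        K * ∫ z, |(exp (-(((θ + Real.pi / 2 : ℝ) : ℂ) * I)) * Φ z).re| ^ q) / 2 := by ring
    rw [h5]
    linarith
  -- integrate over θ
  have hB0 := cont_B hq hΦ hΦc 0
  have hB1 := cont_B hq hΦ hΦc (Real.pi / 2)
  have hfin : ∫ θ in (0 : ℝ)..(2 * Real.pi), ∫ z, ‖X z‖ ^ q ≤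
      ∫ θ in (0 : ℝ)..(2 * Real.pi), 2 ^ q * (K *
      ((∫ z, |(exp (-(((θ + 0 : ℝ) : ℂ) * I)) * Φ z).re| ^ q) +
        ∫ z, |(exp (-(((θ + Real.pi / 2 : ℝ) : ℂ) * I)) * Φ z).re| ^ q) / 2) := by
    refine intervalIntegral.integral_mono_on hpi.le (by simp) ?_ fun θ _ => hz θ
    refine Continuous.intervalIntegrable ?_ _ _
    exact continuous_const.mul (((continuous_const.mul (hB0.add hB1)).div_const 2))
  rw [intervalIntegral.integral_const, intervalIntegral.integral_const_mul,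
    intervalIntegral.integral_div, intervalIntegral.integral_const_mul,
    intervalIntegral.integral_add (hB0.intervalIntegrable _ _) (hB1.intervalIntegrable _ _),
    outer_int hq hΦ hΦc 0, outer_int hq hΦ hΦc (Real.pi / 2), sub_zero, smul_eq_mul] at hfin
  unfold cq
  have h9 : 2 * Real.pi * ∫ z, ‖X z‖ ^ q ≤ 2 * Real.pi * (2 ^ q * ((2 * Real.pi)⁻¹ *
      ∫ θ in (0 : ℝ)..(2 * Real.pi), |Real.cos θ| ^ q) * K * ∫ z, ‖Φ z‖ ^ q) := by
    refine hfin.trans (le_of_eq ?_)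
    field_simp
    ring
  exact le_of_mul_le_mul_left h9 hpi

end Pool.Agent.Helper49.BA
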