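import Pool.Agent.Helper28.BA.GoalsA

/-! # Project BA, goal C11: semiconvex and semiconcave implies `C^{1,1}` -/

open Complex MeasureTheory Set Filter Topology

namespace Pool.Agent.Helper49.BA

open Pool.Agent.Helper28.BA

/-- supporting affine functions of a convex function on the plane -/
theorem subgrad (F : ℂ → ℝ) (hF : ConvexOn ℝ univ F) (z : ℂ) :
    ∃ l : ℂ →L[ℝ] ℝ, ∀ a, F z + l (a - z) ≤ F a := by
  have hc : Continuous F := (ConvexOn.locallyLipschitz hF).continuous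
  have hconv : Convex ℝ {p : ℂ × ℝ | p.1 ∈ (univ : Set ℂ) ∧ F p.1 < p.2} :=
    hF.convex_strict_epigraph
  have hopen : IsOpen {p : ℂ × ℝ | p.1 ∈ (univ : Set ℂ) ∧ F p.1 < p.2} := by
    simp only [mem_univ, true_and]
    exact isOpen_lt (hc.comp continuous_fst) continuous_snd
  obtain ⟨f, hf⟩ := geometric_hahn_banach_open_point hconv hopen (x := (z, F z)) (by simp)
  have hsplit : ∀ (a : ℂ) (t : ℝ), f (a, t) = f (a, 0) + t * f (0, 1) := by
    intro a t
    have h1 : ((a, t) : ℂ × ℝ) = (a, 0) + t • ((0, 1) : ℂ × ℝ) := by simp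
    rw [h1, map_add, map_smul, smul_eq_mul]
  have hc0 : f (0, 1) < 0 := by
    have h1 := hf (z, F z + 1) ⟨mem_univ _, by simp⟩
    rw [hsplit z (F z + 1), hsplit z (F z)] at h1
    linarith
  refine ⟨(-(f (0, 1))⁻¹) • (f.comp (ContinuousLinearMap.inl ℝ ℂ ℝ)), fun a => ?_⟩
  refine le_of_forall_pos_le_add fun ε hε => ?_
  have h1 := hf (a, F a + ε) ⟨mem_univ _, by simpa using hε⟩
  rw [hsplit a (F a + ε), hsplit z (F z)] at h1
  have h2 : ((-(f (0, 1))⁻¹) • (f.comp (ContinuousLinearMap.inl ℝ ℂ ℝ))) (a - z) =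
      -(f (0, 1))⁻¹ * (f (a, 0) - f (z, 0)) := by
    have h3 : ((a, 0) : ℂ × ℝ) - (z, 0) = (a - z, 0) := by simp
    rw [← map_sub, h3]
    simp
  rw [h2]
  have h4 : (F z + -(f (0, 1))⁻¹ * (f (a, 0) - f (z, 0))) * f (0, 1) =
      F z * f (0, 1) - (f (a, 0) - f (z, 0)) := by
    have := hc0.ne
    field_simp
    ring
  have h5 : (F a + ε) * f (0, 1) ≤
      (F z + -(f (0, 1))⁻¹ * (f (a, 0) - f (z, 0))) * f (0, 1) := by
    rw [h4]
    linarith
  exact (mul_le_mul_right_of_neg hc0).1 h5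

/-- the key two-sided estimate -/
theorem two_sided (w : ℂ → ℝ) (h1 : Up w) (h2 : Dn w) (z : ℂ) : ∃ l : ℂ →L[ℝ] ℝ, ∀ a,
    (w z + ‖z‖ ^ 2 / 2) + l (a - z) ≤ w a + ‖a‖ ^ 2 / 2 ∧
    w a + ‖a‖ ^ 2 / 2 ≤ (w z + ‖z‖ ^ 2 / 2) + l (a - z) + ‖a - z‖ ^ 2 := by
  obtain ⟨l, hl⟩ := subgrad _ h1 z
  obtain ⟨m, hm⟩ := subgrad _ h2 z
  refine ⟨l, fun a => ⟨hl a, ?_⟩⟩
  -- the sum of the two supports
  have hexp : ∀ h : ℂ, ‖z + h‖ ^ 2 = ‖z‖ ^ 2 + 2 * (z.re * h.re + z.im * h.im) + ‖h‖ ^ 2 := by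
    intro h
    simp only [Complex.sq_norm, Complex.normSq_apply, Complex.add_re, Complex.add_im]
    ring
  have key : ∀ h : ℂ, l h + m h ≤ 2 * (z.re * h.re + z.im * h.im) + ‖h‖ ^ 2 := by
    intro h
    have e1 := hl (z + h)
    have e2 := hm (z + h)
    have e3 := hexp h
    simp only [add_sub_cancel_left] at e1 e2
    linarith
  have key2 : ∀ h : ℂ, 2 * (z.re * h.re + z.im * h.im) ≤ l h + m h := by
    intro h
    by_contra hcon
    push Not at hcon
    set D : ℝ := 2 * (z.re * h.re + z.im * h.im) - (l h + m h) with hD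
    have hDpos : 0 < D := by linarith
    -- use `-t h`
    have hk : ∀ t : ℝ, 0 < t → D ≤ t * ‖h‖ ^ 2 := by
      intro t ht
      have e := key ((-t : ℝ) • h)
      have e1 : l ((-t : ℝ) • h) = -t * l h := by rw [map_smul, smul_eq_mul]
      have e2 : m ((-t : ℝ) • h) = -t * m h := by rw [map_smul, smul_eq_mul]
      have e3 : ((-t : ℝ) • h).re = -t * h.re := by simp
      have e4 : ((-t : ℝ) • h).im = -t * h.im := by simp
      have e5 : ‖((-t : ℝ) • h)‖ ^ 2 = t ^ 2 * ‖h‖ ^ 2 := by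
        rw [norm_smul, mul_pow]
        simp
      rw [e1, e2, e3, e4, e5] at e
      have e6 : t * D ≤ t * (t * ‖h‖ ^ 2) := by
        rw [hD]
        nlinarith
      exact le_of_mul_le_mul_left e6 ht
    have h3 := hk (D / (2 * (‖h‖ ^ 2 + 1))) (by positivity)
    have h4 : D / (2 * (‖h‖ ^ 2 + 1)) * ‖h‖ ^ 2 < D := by
      rw [div_mul_eq_mul_div, div_lt_iff₀ (by positivity)]
      nlinarith [sq_nonneg ‖h‖]
    linarith
  have e2 := hm a
  have e3 := hexp (a - z)
  have e4 := key2 (a - z)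
  rw [add_sub_cancel] at e3
  linarith

theorem C11 : S_C11 := by
  intro w h1 h2
  choose l hl using two_sided w h1 h2
  have hder : ∀ z, HasFDerivAt (fun z : ℂ => w z + ‖z‖ ^ 2 / 2) (l z) z := by
    intro z
    refine HasFDerivAt.of_isLittleO ?_
    have hO : (fun a : ℂ => (w a + ‖a‖ ^ 2 / 2) - (w z + ‖z‖ ^ 2 / 2) - l z (a - z)) =O[𝓝 z]
        fun a : ℂ => ‖a - z‖ ^ 2 := by
      refine Asymptotics.IsBigO.of_bound 1 (Eventually.of_forall fun a => ?_)
      have e := hl z a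
      rw [one_mul, Real.norm_eq_abs, Real.norm_eq_abs, abs_of_nonneg (by positivity :
        (0 : ℝ) ≤ ‖a - z‖ ^ 2), abs_le]
      constructor
      · have : 0 ≤ ‖a - z‖ ^ 2 := by positivity
        linarith [e.1]
      · linarith [e.2]
    exact hO.trans_isLittleO (Asymptotics.isLittleO_pow_sub_sub z (by norm_num))
  have hder2 : ∀ z, HasFDerivAt w (l z - innerSL ℝ z) z := by
    intro z
    have e1 : HasFDerivAt (fun z : ℂ => ‖z‖ ^ 2 / 2) (innerSL ℝ z) z := by
      have e := ((hasStrictFDerivAt_norm_sq z).hasFDerivAt (𝕜 := ℝ)).const_mul (1 / 2 : ℝ)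
      have e' : (fun z : ℂ => ‖z‖ ^ 2 / 2) = fun z : ℂ => (1 / 2 : ℝ) * ‖z‖ ^ 2 := by
        funext z
        ring
      rw [e']
      exact e.congr_fderiv (by ext v; simp; ring)
    have e2 := (hder z).sub e1
    have e3 : ((fun z : ℂ => w z + ‖z‖ ^ 2 / 2) - fun z : ℂ => ‖z‖ ^ 2 / 2) = w := by
      funext a
      simp
    rwa [e3] at e2
  refine ⟨fun z => (hder2 z).differentiableAt, 6, ?_⟩
  have hgrd : ∀ z, grd w z = ⟨l z 1 - z.re, l z I - z.im⟩ := by
    intro z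
    unfold grd
    rw [(hder2 z).fderiv]
    apply Complex.ext
    · simp [Complex.inner]
    · simp [Complex.inner]
  refine LipschitzWith.of_dist_le_mul fun z x => ?_
  rw [dist_eq_norm, dist_eq_norm, hgrd, hgrd]
  -- the estimate for the differences
  have hkey : ∀ z x h : ℂ, l z h - l x h ≤ ‖h‖ ^ 2 + ‖x - z‖ ^ 2 := by
    intro z x h
    have e1 := (hl z (x + h)).1
    have e2 := (hl x (x + h)).2
    have e3 := (hl z x).2
    have e4 : l z (x + h - z) = l z (x - z) + l z h := by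
      rw [← map_add]
      congr 1
      ring
    rw [e4] at e1
    rw [add_sub_cancel_left] at e2
    linarith
  have hcomp : ∀ (e : ℂ), ‖e‖ = 1 → ∀ z x : ℂ, |l z e - l x e| ≤ 2 * ‖x - z‖ := by
    intro e he z x
    rcases eq_or_ne x z with rfl | hne
    · simp
    · have ht : 0 < ‖x - z‖ := norm_pos_iff.2 (sub_ne_zero.2 hne)
      have a1 := hkey z x ((‖x - z‖ : ℝ) • e)
      have a2 := hkey z x ((-‖x - z‖ : ℝ) • e)
      rw [map_smul, map_smul, smul_eq_mul, smul_eq_mul, norm_smul, he, mul_one, norm_norm] at a1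
      rw [map_smul, map_smul, smul_eq_mul, smul_eq_mul, norm_smul, he, mul_one, norm_neg,
        norm_norm] at a2
      rw [abs_le]
      constructor
      · have : ‖x - z‖ * (-(2 * ‖x - z‖)) ≤ ‖x - z‖ * (l z e - l x e) := by nlinarith
        exact le_of_mul_le_mul_left this ht
      · have : ‖x - z‖ * (l z e - l x e) ≤ ‖x - z‖ * (2 * ‖x - z‖) := by nlinarith
        exact le_of_mul_le_mul_left this ht
  have b1 := hcomp 1 (by simp) z x
  have b2 := hcomp I (by simp) z x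
  have b3 := Complex.norm_le_abs_re_add_abs_im
    ((⟨l z 1 - z.re, l z I - z.im⟩ : ℂ) - ⟨l x 1 - x.re, l x I - x.im⟩)
  have b4 : |(x - z).re| ≤ ‖x - z‖ := Complex.abs_re_le_norm _
  have b5 : |(x - z).im| ≤ ‖x - z‖ := Complex.abs_im_le_norm _
  simp only [Complex.sub_re, Complex.sub_im] at b3 b4 b5
  have b6 : |l z 1 - z.re - (l x 1 - x.re)| ≤ 3 * ‖x - z‖ := by
    rw [abs_le] at *
    constructor <;> linarith [b1.1, b1.2, b4.1, b4.2]
  have b7 : |l z I - z.im - (l x I - x.im)| ≤ 3 * ‖x - z‖ := by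
    rw [abs_le] at *
    constructor <;> linarith [b2.1, b2.2, b5.1, b5.2]
  have b8 : ‖z - x‖ = ‖x - z‖ := norm_sub_rev z x
  rw [b8]
  refine b3.trans ?_
  have b9 : ((6 : NNReal) : ℝ) = 6 := rfl
  rw [b9]
  linarith

end Pool.Agent.Helper49.BA
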