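import Pool.Agent.Helper28.BA.GoalsA

/-! # Project BA, goal SUPF: supremum of subsolutions -/

open Complex MeasureTheory Set Filter Topology

namespace Pool.Agent.Helper49.BA

open Pool.Agent.Helper28.BA

theorem nsq (z : ℂ) : ‖z‖ ^ 2 = z.re * z.re + z.im * z.im := by
  rw [Complex.sq_norm, Complex.normSq_apply]

theorem up_cont {v : ℂ → ℝ} (h : Up v) : Continuous v := by
  have h1 : Continuous fun z : ℂ => v z + ‖z‖ ^ 2 / 2 :=
    (ConvexOn.locallyLipschitz h).continuous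
  have h2 : Continuous fun z : ℂ => ‖z‖ ^ 2 / 2 := by fun_prop
  have h3 := h1.sub h2
  have h4 : ((fun z : ℂ => v z + ‖z‖ ^ 2 / 2) - fun z : ℂ => ‖z‖ ^ 2 / 2) = v := by
    funext z
    simp
  rwa [h4] at h3

theorem SUPF : S_SUPF := by
  intro u b hu 𝒱 hne hV
  have hbdd : ∀ z, BddAbove ((fun v : ℂ → ℝ => v z) '' 𝒱) := by
    intro z
    refine ⟨b z, ?_⟩
    rintro _ ⟨v, hv, rfl⟩
    exact (hV v hv).2.2 z
  have hle : ∀ v ∈ 𝒱, ∀ z, v z ≤ sSup ((fun v : ℂ → ℝ => v z) '' 𝒱) := fun v hv z =>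
    le_csSup (hbdd z) ⟨v, hv, rfl⟩
  have hneI : ∀ z, ((fun v : ℂ → ℝ => v z) '' 𝒱).Nonempty := fun z => hne.image _
  refine ⟨?_, ?_⟩
  · refine ⟨convex_univ, ?_⟩
    intro x _ y _ s t hs ht hst
    simp only [smul_eq_mul]
    have hmain : sSup ((fun v : ℂ → ℝ => v (s • x + t • y)) '' 𝒱) ≤
        s * (sSup ((fun v : ℂ → ℝ => v x) '' 𝒱) + ‖x‖ ^ 2 / 2) +
        t * (sSup ((fun v : ℂ → ℝ => v y) '' 𝒱) + ‖y‖ ^ 2 / 2) -
        ‖s • x + t • y‖ ^ 2 / 2 := by
      refine csSup_le (hneI _) ?_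
      rintro _ ⟨v, hv, rfl⟩
      have h1 := (hV v hv).1.2 (mem_univ x) (mem_univ y) hs ht hst
      simp only [smul_eq_mul] at h1
      have h2 := mul_le_mul_of_nonneg_left (hle v hv x) hs
      have h3 := mul_le_mul_of_nonneg_left (hle v hv y) ht
      simp only
      linarith
    linarith
  · intro z hz ε a r hε hr
    by_contra hcon
    push Not at hcon
    set w : ℂ → ℝ := fun z => sSup ((fun v : ℂ → ℝ => v z) '' 𝒱) with hw
    set Q : ℂ → ℝ := fun x => w z + dot a (x - z) + (1 - ε) * (‖x - z‖ ^ 2 / 2) with hQ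
    have hQc : Continuous Q := by
      unfold Q dot
      fun_prop
    have hQz : Q z = w z := by
      simp [hQ, dot]
    have hzw : u z < w z := hz
    obtain ⟨η, hη, hη2⟩ : ∃ η : ℝ, 0 < η ∧ u z + η < Q z := by
      refine ⟨(w z - u z) / 2, by linarith, ?_⟩
      rw [hQz]
      linarith
    have hopen : IsOpen {x | u x + η < Q x} :=
      isOpen_lt (hu.add continuous_const) hQc
    obtain ⟨ρ, hρ, hball⟩ := Metric.isOpen_iff.1 hopen z hη2
    set r₁ : ℝ := min ρ r / 2 with hr₁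
    have hmin : 0 < min ρ r := lt_min hρ hr
    have hr₁pos : 0 < r₁ := by positivity
    have hr₁ρ : r₁ < ρ := by
      have := min_le_left ρ r
      linarith
    have hr₁r : r₁ < r := by
      have := min_le_right ρ r
      linarith
    set δ : ℝ := min η (ε / 8 * r₁ ^ 2) with hδ
    have hδpos : 0 < δ := lt_min hη (by positivity)
    have hδη : δ ≤ η := min_le_left _ _
    have hδr : δ ≤ ε / 8 * r₁ ^ 2 := min_le_right _ _
    obtain ⟨_, ⟨v, hv, rfl⟩, hvz⟩ := exists_lt_of_lt_csSup (hneI z)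
      (show w z - δ < sSup ((fun v : ℂ → ℝ => v z) '' 𝒱) by
        have : w z = sSup ((fun v : ℂ → ℝ => v z) '' 𝒱) := rfl
        linarith)
    simp only at hvz
    obtain ⟨hvUp, hvSub, -⟩ := hV v hv
    have hvc := up_cont hvUp
    set H : ℂ → ℝ := fun x => v x - Q x - ε / 4 * ‖x - z‖ ^ 2 with hH
    have hHc : Continuous H := by
      unfold H
      fun_prop
    obtain ⟨x₁, hx₁, hmax⟩ := (isCompact_closedBall z r₁).exists_isMaxOn
      ⟨z, Metric.mem_closedBall_self hr₁pos.le⟩ hHc.continuousOn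
    have hmax' : ∀ x, ‖x - z‖ ≤ r₁ → H x ≤ H x₁ := by
      intro x hx
      refine hmax ?_
      rw [Metric.mem_closedBall, dist_eq_norm]
      exact hx
    rw [Metric.mem_closedBall, dist_eq_norm] at hx₁
    have hvw : ∀ x, v x ≤ w x := hle v hv
    have hHz : -δ < H z := by
      have : H z = v z - w z := by
        simp [hH, hQz]
      rw [this]
      linarith
    have hHx₁ : -δ < H x₁ := lt_of_lt_of_le hHz (hmax' z (by simpa using hr₁pos.le))
    have hx₁Q : w x₁ ≤ Q x₁ := hcon x₁ (lt_of_le_of_lt hx₁ hr₁r)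
    have hx₁lt : ‖x₁ - z‖ < r₁ := by
      rcases lt_or_eq_of_le hx₁ with h | h
      · exact h
      · exfalso
        have h1 : H x₁ = v x₁ - Q x₁ - ε / 4 * r₁ ^ 2 := by
          simp only [hH, h]
        have h2 := hvw x₁
        have h3 : 0 < ε / 8 * r₁ ^ 2 := by positivity
        linarith
    have hux₁ : u x₁ < v x₁ := by
      have h1 : u x₁ + η < Q x₁ := by
        refine hball ?_
        rw [Metric.mem_ball, dist_eq_norm]
        linarith
      have h2 : H x₁ = v x₁ - Q x₁ - ε / 4 * ‖x₁ - z‖ ^ 2 := rfl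
      have h3 : 0 ≤ ε / 4 * ‖x₁ - z‖ ^ 2 := by positivity
      linarith
    obtain ⟨x, hx, hlt⟩ := hvSub x₁ hux₁ (ε / 2) (a + ((1 - ε / 2 : ℝ) : ℂ) * (x₁ - z))
      (r₁ - ‖x₁ - z‖) (by linarith) (by linarith)
    have hxz : ‖x - z‖ ≤ r₁ := by
      have : x - z = (x - x₁) + (x₁ - z) := by ring
      rw [this]
      have := norm_add_le (x - x₁) (x₁ - z)
      linarith
    have h1 := hmax' x hxz
    have h2 : H x = v x - (w z + dot a (x - z) + (1 - ε) * (‖x - z‖ ^ 2 / 2)) -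
      ε / 4 * ‖x - z‖ ^ 2 := rfl
    have h3 : H x₁ = v x₁ - (w z + dot a (x₁ - z) + (1 - ε) * (‖x₁ - z‖ ^ 2 / 2)) -
      ε / 4 * ‖x₁ - z‖ ^ 2 := rfl
    rw [h2, h3] at h1
    simp only [nsq, dot, Complex.add_re, Complex.add_im, Complex.sub_re, Complex.sub_im,
      Complex.mul_re, Complex.mul_im, Complex.ofReal_re, Complex.ofReal_im] at h1 hlt
    nlinarith [h1, hlt]

end Pool.Agent.Helper49.BA
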