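import Pool.Agent.Helper28.BA.GoalsB

/-! # Project BA, goal THMB: Theorem B -/

open Complex MeasureTheory Set Filter Topology
open scoped ContDiff ComplexConjugate

namespace Pool.Agent.Helper49.BA

open Pool.Agent.Helper28.BA

theorem fd_mul {f : ℂ → ℂ} (hf : Differentiable ℝ f) (e z v : ℂ) :
    fderiv ℝ (fun x => e * f x) z v = e * fderiv ℝ f z v := by
  rw [fderiv_const_mul (hf z)]
  simp

theorem fd_conj {f : ℂ → ℂ} (hf : Differentiable ℝ f) (z v : ℂ) :
    fderiv ℝ (fun x => conj (f x)) z v = conj (fderiv ℝ f z v) := by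
  have h1 : HasFDerivAt (fun x => conj (f x))
      ((Complex.conjCLE : ℂ →L[ℝ] ℂ).comp (fderiv ℝ f z)) z :=
    ((Complex.conjCLE : ℂ →L[ℝ] ℂ).hasFDerivAt (x := f z)).comp z (hf z).hasFDerivAt
  rw [h1.fderiv]
  simp

theorem dz_mul {f : ℂ → ℂ} (hf : Differentiable ℝ f) (e z : ℂ) :
    dz (fun x => e * f x) z = e * dz f z := by
  unfold dz
  rw [fd_mul hf, fd_mul hf]
  ring

theorem db_mul {f : ℂ → ℂ} (hf : Differentiable ℝ f) (e z : ℂ) :
    db (fun x => e * f x) z = e * db f z := by
  unfold db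
  rw [fd_mul hf, fd_mul hf]
  ring

theorem dz_conj {f : ℂ → ℂ} (hf : Differentiable ℝ f) (z : ℂ) :
    dz (fun x => conj (f x)) z = conj (db f z) := by
  unfold dz db
  rw [fd_conj hf, fd_conj hf]
  simp only [map_mul, map_add, map_div₀, map_one, map_ofNat, conj_I]
  ring

theorem db_conj {f : ℂ → ℂ} (hf : Differentiable ℝ f) (z : ℂ) :
    db (fun x => conj (f x)) z = conj (dz f z) := by
  unfold dz db
  rw [fd_conj hf, fd_conj hf]
  simp only [map_mul, map_sub, map_div₀, map_one, map_ofNat, conj_I]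
  ring

/-- unimodular constant which makes `c` real -/
theorem exists_rot (c : ℂ) : ∃ e : ℂ, ‖e‖ = 1 ∧ (e * c).im = 0 := by
  rcases eq_or_ne c 0 with rfl | hc
  · exact ⟨1, by simp, by simp⟩
  · have hn : (‖c‖ : ℂ) ≠ 0 := by
      simpa using hc
    refine ⟨conj c / ‖c‖, ?_, ?_⟩
    · rw [norm_div, Complex.norm_conj, Complex.norm_real, norm_norm]
      exact div_self (norm_ne_zero_iff.2 hc)
    · have h1 : conj c / (‖c‖ : ℂ) * c = ((‖c‖ : ℝ) : ℂ) := by
        rw [div_mul_eq_mul_div, mul_comm, Complex.mul_conj, Complex.normSq_eq_norm_sq]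
        push_cast
        field_simp
      rw [h1]
      simp

theorem real_mul (e c a : ℂ) (hec : (e * c).im = 0) (h : ∃ r : ℝ, a = r * c) :
    (e * a).im = 0 := by
  obtain ⟨r, rfl⟩ := h
  have : e * (r * c) = (r : ℂ) * (e * c) := by ring
  rw [this, Complex.im_ofReal_mul, hec, mul_zero]

theorem THMB (h1 : S_GRAD) (h2 : S_POT) : S_THMB := by
  intro p hp f hf hfc c hcase
  have hd : Differentiable ℝ f := hf.differentiable (by simp)
  obtain ⟨e, he, hec⟩ := exists_rot c
  rcases hcase with ⟨hp2, hr⟩ | ⟨hp2, hr⟩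
  · have hF : ContDiff ℝ 1 fun x => e * f x := contDiff_const.mul hf
    have hFc : HasCompactSupport fun x => e * f x := hfc.mul_left
    obtain ⟨u, hu, huc, hg⟩ := h2 _ hF hFc (fun z => by
      rw [dz_mul hd]
      exact real_mul e c _ hec (hr z))
    have h := (h1 u hu huc).1 p hp hp2
    rw [hg] at h
    have e1 : (fun z => ‖db (fun x => e * f x) z‖ ^ p) = fun z => ‖db f z‖ ^ p := by
      funext z
      rw [db_mul hd, norm_mul, he, one_mul]
    have e2 : (fun z => ‖dz (fun x => e * f x) z‖ ^ p) = fun z => ‖dz f z‖ ^ p := by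
      funext z
      rw [dz_mul hd, norm_mul, he, one_mul]
    rw [e1, e2] at h
    have hmax : max p (p / (p - 1)) - 1 = 1 / (p - 1) := by
      have hp1 : 0 < p - 1 := by linarith
      rw [max_eq_right]
      · field_simp
        ring
      · rw [le_div_iff₀ hp1]
        nlinarith
    rw [hmax]
    exact h
  · have hdF : Differentiable ℝ fun x => e * f x := hd.const_mul e
    have hF : ContDiff ℝ 1 fun x => conj (e * f x) :=
      (Complex.conjCLE : ℂ →L[ℝ] ℂ).contDiff.comp (contDiff_const.mul hf)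
    have hFc : HasCompactSupport fun x => conj (e * f x) := by
      have h3 : HasCompactSupport fun x => e * f x := hfc.mul_left
      exact h3.comp_left (g := fun w : ℂ => conj w) (by simp)
    obtain ⟨u, hu, huc, hg⟩ := h2 _ hF hFc (fun z => by
      rw [dz_conj hdF, db_mul hd, Complex.conj_im, real_mul e c _ hec (hr z), neg_zero])
    have h := (h1 u hu huc).2 p hp2
    rw [hg] at h
    have e1 : (fun z => ‖dz (fun x => conj (e * f x)) z‖ ^ p) = fun z => ‖db f z‖ ^ p := by
      funext z
      rw [dz_conj hdF, Complex.norm_conj, db_mul hd, norm_mul, he, one_mul]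
    have e2 : (fun z => ‖db (fun x => conj (e * f x)) z‖ ^ p) = fun z => ‖dz f z‖ ^ p := by
      funext z
      rw [db_conj hdF, Complex.norm_conj, dz_mul hd, norm_mul, he, one_mul]
    rw [e1, e2] at h
    have hmax : max p (p / (p - 1)) - 1 = p - 1 := by
      have hp1 : 0 < p - 1 := by linarith
      rw [max_eq_left]
      rw [div_le_iff₀ hp1]
      nlinarith
    rw [hmax]
    exact h

end Pool.Agent.Helper49.BA
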